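import Pool.Agent.H2.NL.Defs
import Pool.Agent.H64.EV.Deligne

/-!
# Symmetric and exterior powers of the rest of the motive of a generic complete intersection
-/

set_option autoImplicit false

open Matrix

namespace Pool.Agent.H64.EK

open Pool.Agent.H2.NL

variable {K : Type} [Field K] {I J : Type}

/-- the letters `a` of a word `v`, each with the sign of moving it to the first place (`z = 1`: the
Koszul sign; `z = -1`: the Koszul sign times the sign of the cyclic permutation), and with the rest
of the word -/
def selz (z : K) (o : I → Bool) : List I → List (K × I × List I)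
  | [] => []
  | b :: v => (1, b, v) ::
    (selz z o v).map fun x => (z * ks K (o b) (o x.2.1) * x.1, x.2.1, b :: x.2.2)

/-- the matrix entry `(u, v)` of `∑ s (f ⊗ … ⊗ f)`, the sum over the permutations `s` with Koszul
signs (`z = 1`), or with Koszul signs times the signs of the permutations (`z = -1`); `o` is the
parity of the letters of `v` -/
def xp (z : K) (o : J → Bool) (f : Matrix I J K) : List I → List J → K
  | [], [] => 1
  | [], _ :: _ => 0
  | a :: u, v => ((selz z o v).map fun x => x.1 * f a x.2.1 * xp z o f u x.2.2).sum

end Pool.Agent.H64.EK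

namespace Pool.Agent.H64.CC.Weil

open Pool.Agent.H2.NL Pool.Agent.H64.EK

variable {K : Type} [Field K] [CharZero K] {W : Weil K}

/-- the endomorphism `∑ s (f ⊗ … ⊗ f)` of `H(T ^ n) = H(T) ^ (⊗ n)`, the sum over all permutations
`s` of the `n` factors, with Koszul signs, and with the signs of the permutations if `z = -1`: for a
projector `f` this is `n!` times the projector on the super-symmetric (`z = 1`) or super-exterior
(`z = -1`) power of `f H(T)` -/
def PowerData.permPow {m : ℕ} {T : W.Var m} (P : W.PowerData T) (z : K) (f : W.Hom T T) (n : ℕ) :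
    W.Hom (P.pow n) (P.pow n) :=
  Matrix.of fun a b => xp z (W.par T) f (P.word n a) (P.word n b)

/-- `(T, ε)` is a maximal direct factor of the motive of the generic complete intersection `T` which
comes from `V`: `ε` is an algebraic, self-adjoint idempotent, the restriction of a correspondence
`c` of `V`, and the correspondences which vanish on the vanishing classes are numerically trivial on
the rest `R = (T, 1 - ε)` of the motive of `T`; and `b` is the absolute value of the Euler
characteristic of `R`, which has the sign `(-1) ^ (dim T)` -/
structure Remainder {m : ℕ} {V : W.Var 0} {L : W.Hom V V} {r : ℕ} {T : W.Var m}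
    (S : W.Deligne V L r T) (ε : W.Hom T T) (b : ℕ) : Prop where
  mem : ε ∈ W.cyc T T 0
  idem : W.comp ε ε = ε
  adj : εᵀ * S.powers.form = S.powers.form * ε
  factor : ∃ c ∈ W.cyc V V (-(r : ℤ)), ε = W.comp (W.comp S.up c) S.down
  max : ∀ f ∈ W.cyc T T 0, (∀ u, W.Vanishing S.toGenericIntersection u → W.ap f u = 0) →
    W.str (W.comp f (1 - ε)) = 0
  euler : W.str (1 - ε) = (-1) ^ W.dim T * (b : K)

/-- `n!` times the projector on the super-symmetric power `Sym ^ n (T, f)`, if `dim T` is odd, or on
the super-exterior power `⋀ ^ n (T, f)`, if `dim T` is even -/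
def Deligne.power {m : ℕ} {V : W.Var 0} {L : W.Hom V V} {r : ℕ} {T : W.Var m}
    (S : W.Deligne V L r T) (f : W.Hom T T) (n : ℕ) : W.Hom (S.powers.pow n) (S.powers.pow n) :=
  S.powers.permPow (-(-1) ^ W.dim T) f n

end Pool.Agent.H64.CC.Weil
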