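import Pool.Agent.H64.EK.Rows
import Pool.Agent.H64.EV.Final
import Pool.Agent.H64.NMW.Rows

/-!
# The numerical motive of a generic complete intersection
-/

set_option autoImplicit false

open Matrix Pool.Agent.H64.CC Pool.Agent.H2.NL Pool.Agent.H2.KM

namespace Pool.Agent.H64.EK

open Pool.Agent.H64.NLW Pool.Agent.H64.EV Pool.Agent.H64.NMW

section

variable {K : Type} [Field K] [CharZero K] (W : Weil K) (hW : W.Theory)

/-- a restriction kills the vanishing classes -/
theorem kills {V : W.Var 0} {L : W.Hom V V} {r m : ℕ} {T : W.Var m}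
    (S : W.Deligne V L r T) {ε : W.Hom T T} {b : ℕ} (R : Weil.Remainder S ε b) :
    ∀ u, W.Vanishing S.toGenericIntersection u → W.ap ε u = 0 := by
  intro u hu
  obtain ⟨c, -, hc⟩ := R.factor
  rw [hc]
  change ((S.up * c) * S.down) *ᵥ u = 0
  rw [← Matrix.mulVec_mulVec]
  have h : S.down *ᵥ u = 0 := hu.2
  rw [h, Matrix.mulVec_zero]

include hW in
/-- correspondences of degree `0` preserve the parity -/
theorem par_of_mem {m : ℕ} {T : W.Var m} {f : W.Hom T T} (hf : f ∈ W.cyc T T 0) :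
    ∀ a b, f a b ≠ 0 → W.par T a = W.par T b := by
  intro a b hab
  have h := hW.calculus.cyc_deg T T 0 _ hf a b hab
  have h1 : W.deg T a = W.deg T b := by omega
  unfold Weil.par
  rw [h1]

/-- even dimension -/
theorem power_even {V : W.Var 0} {L : W.Hom V V} {r m : ℕ} {T : W.Var m}
    (S : W.Deligne V L r T) (h : Even (W.dim T)) (f : W.Hom T T) (n : ℕ) :
    S.power f n = S.powers.permPow (-1) f n := by
  unfold Weil.Deligne.power
  rw [h.neg_one_pow]

include hW in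
/-- odd dimension -/
theorem power_odd {V : W.Var 0} {L : W.Hom V V} {r m : ℕ} {T : W.Var m}
    (S : W.Deligne V L r T) (h : Odd (W.dim T)) {f : W.Hom T T} (hf : f ∈ W.cyc T T 0) (n : ℕ) :
    S.power f n = (toSym S h).powers.symPow f n := by
  unfold Weil.Deligne.power
  rw [h.neg_one_pow, neg_neg]
  ext a b
  exact (x_XPS K (Fin (W.rk T)) (Fin (W.rk T)) (W.par T) (W.par T) f (par_of_mem W hW hf) _ _).1

include hW in
/-- the rest `1 - ε` of the motive -/
theorem rho_facts {V : W.Var 0} {L : W.Hom V V} {r m : ℕ} {T : W.Var m}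
    (S : W.Deligne V L r T) {ε : W.Hom T T} {b : ℕ} (R : Weil.Remainder S ε b) :
    (1 : W.Hom T T) - ε ∈ W.cyc T T 0 ∧ ((1 : W.Hom T T) - ε) * (1 - ε) = 1 - ε ∧
    ((1 : W.Hom T T) - ε)ᵀ * S.powers.form = S.powers.form * (1 - ε) ∧
    (∀ a b, ((1 : W.Hom T T) - ε) a b ≠ 0 → W.deg T a = W.deg T b) ∧
    (∀ u ∈ van S.toGenericIntersection, ((1 : W.Hom T T) - ε) *ᵥ u = u) := by
  have hε := R.mem
  have hεε : ε * ε = ε := R.idem
  have hεadj := R.adj
  have hρ : (1 : W.Hom T T) - ε ∈ W.cyc T T 0 :=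
    (W.cyc T T 0).sub_mem (hW.calculus.one_mem T) hε
  refine ⟨hρ, ?_, ?_, ?_, ?_⟩
  · rw [mul_sub, mul_one, sub_mul, one_mul, hεε, sub_self, sub_zero]
  · rw [Matrix.transpose_sub, Matrix.transpose_one, sub_mul, one_mul, hεadj, mul_sub, mul_one]
  · intro a b hab
    have h := hW.calculus.cyc_deg T T 0 _ hρ a b hab
    omega
  · intro u hu
    have h' : ε *ᵥ u = 0 := kills W S R u hu
    rw [Matrix.sub_mulVec, Matrix.one_mulVec, h', sub_zero]

include hW in
theorem main_odd {V : W.Var 0} {L : W.Hom V V} (hL : L ∈ W.Lef V) {r m : ℕ} {T : W.Var m}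
    (S : W.Deligne V L r T) (hodd : Odd (W.dim T)) {ε : W.Hom T T} {b : ℕ}
    (R : Weil.Remainder S ε b) :
    Even b ∧
    (∀ n : ℕ, S.power (1 - ε) n ∈ W.cyc (S.powers.pow n) (S.powers.pow n) 0) ∧
    W.NumTrivial (S.powers.pow (b + 1)) (S.power (1 - ε) (b + 1)) ∧
    (∀ n ≤ b, ¬ W.NumTrivial (S.powers.pow n) (S.power (1 - ε) n)) := by
  have hε := R.mem
  have hεε : ε * ε = ε := R.idem
  have hεadj := R.adj
  have hεV := kills W S R
  have hεmax : ∀ f ∈ W.cyc T T 0, (∀ u, W.Vanishing S.toGenericIntersection u → W.ap f u = 0) →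
      W.str (f * (1 - ε)) = 0 := R.max
  have heul : W.str (1 - ε) = -(b : K) := by
    rw [R.euler, hodd.neg_one_pow, neg_one_mul]
  obtain ⟨hρ, hρρ, hρadj, hρdeg, hρU⟩ := rho_facts W hW S R
  obtain ⟨S', hS'⟩ : ∃ S' : W.Symplectic V L r T, S' = toSym S hodd := ⟨_, rfl⟩
  have hpow : ∀ n, S.power (1 - ε) n = (toSym S hodd).powers.symPow (1 - ε) n :=
    fun n => power_odd W hW S hodd hρ n
  obtain ⟨-, -, hv3, -⟩ := r_VAN K W hW V L hL r m T (toSym S hodd)
  obtain ⟨n, n', ⟨D⟩⟩ := r_ADA K (W.rk T) (W.deg T) (W.dim T) S.powers.form (1 - ε) hodd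
    S.powers.form_deg S.powers.form_symm S.powers.form_unit hρρ hρadj hρdeg
    (van S.toGenericIntersection) (fun u hu => hu.1) hρU (fun u hu hv => hv3 u hu hv)
  have hsys := r_SYS K W hW V L hL r m T (toSym S hodd) ε hε hεε hεadj hεV hεmax
    (van S.toGenericIntersection) (fun u => Iff.rfl) n n' D
  have hcal := r_CAL K W m T S.powers (1 - ε) hρ (van S.toGenericIntersection) n n' D
  obtain ⟨-, l, hl, -, hsd⟩ := r_SDM K (Fin n) (Fin n') D.F _ hsys
  have hkim := k_KIM K (Fin n ⊕ Fin n') D.F _ hcal l hl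
    (fun x hx hsym => r_REC K (Fin n) (Fin n') D.F _ hsys l x hl hsd hx hsym)
  have hnt := k_NTR K W hW m T S.powers (1 - ε) hρ hρρ (van S.toGenericIntersection) n n' D
    (2 * l - 1) hkim
  obtain ⟨hstr, hnn⟩ := k_NTN K W hW m T S.powers (1 - ε) hρ hρρ (van S.toGenericIntersection)
    n n' D
  have hb : D.F.sd = -(((2 * l - 2 : ℕ)) : K) := by
    rw [hsd, Nat.cast_sub (by omega)]
    push_cast
    ring
  have hb2 : b = 2 * l - 2 := by
    have h1 : -(b : K) = -(((2 * l - 2 : ℕ)) : K) := by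
      rw [← hb, ← hstr]
      exact heul.symm
    exact Nat.cast_injective (neg_injective h1)
  rw [hb2]
  refine ⟨⟨l - 1, by omega⟩, fun n => ?_, ?_, fun N hN => ?_⟩
  · rw [hpow]
    exact k_SPA K W hW m T S.powers (1 - ε) hρ n
  · have e3 : 2 * l - 2 + 1 = 2 * l - 1 := by omega
    rw [e3, hpow]
    exact hnt
  · rw [hpow]
    exact hnn N (2 * l - 2) hb hN

include hW in
theorem main_even {V : W.Var 0} {L : W.Hom V V} (hL : L ∈ W.Lef V) {r m : ℕ} {T : W.Var m}
    (S : W.Deligne V L r T) (hev : Even (W.dim T)) {ε : W.Hom T T} {b : ℕ}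
    (R : Weil.Remainder S ε b) :
    (∀ n : ℕ, S.power (1 - ε) n ∈ W.cyc (S.powers.pow n) (S.powers.pow n) 0) ∧
    W.NumTrivial (S.powers.pow (b + 1)) (S.power (1 - ε) (b + 1)) ∧
    (∀ n ≤ b, ¬ W.NumTrivial (S.powers.pow n) (S.power (1 - ε) n)) := by
  have hε := R.mem
  have hεε : ε * ε = ε := R.idem
  have hεadj := R.adj
  have hεV := kills W S R
  have hεmax : ∀ f ∈ W.cyc T T 0, (∀ u, W.Vanishing S.toGenericIntersection u → W.ap f u = 0) →
      W.str (f * (1 - ε)) = 0 := R.max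
  have heul : W.str (1 - ε) = (b : K) := by
    rw [R.euler, hev.neg_one_pow, one_mul]
  obtain ⟨hρ, hρρ, hρadj, hρdeg, hρU⟩ := rho_facts W hW S R
  have hpow : ∀ n, S.power (1 - ε) n = S.powers.permPow (-1) (1 - ε) n :=
    fun n => power_even W S hev (1 - ε) n
  obtain ⟨-, -, hv3, -⟩ := e_VAO K W hW V L hL r m T (toOrt S hev)
  obtain ⟨n, n', ⟨D⟩⟩ := e_ADO K (W.rk T) (W.deg T) (W.dim T) S.powers.form (1 - ε) hev
    S.powers.form_deg S.powers.form_symm S.powers.form_unit hρρ hρadj hρdeg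
    (van S.toGenericIntersection) (fun u hu => hu.1) hρU (fun u hu hv => hv3 u hu hv)
  have hsys := e_SYO K W hW V L hL r m T (toOrt S hev) ε hε hεε hεadj hεV hεmax
    (van S.toGenericIntersection) (fun u => Iff.rfl) n n' D
  have hcal := e_CAO K W m T S.powers (1 - ε) hρ (van S.toGenericIntersection) n n' D
  obtain ⟨-, t, ht, -, hsd⟩ := e_OSD K (Fin n) (Fin n') D.F _ hsys
  have hrel := e_OER K (Fin n) (Fin n') D.F _ hsys
  have hkim := x_EKM K (Fin n ⊕ Fin n') D.F _ hcal hrel (t + 1) (by omega) (by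
    rw [hsd]; push_cast; ring)
  have hnt := x_NTX K W hW m T S.powers (1 - ε) hρ hρρ (van S.toGenericIntersection) n n' D
    (-1) (t + 1) hkim
  obtain ⟨hstr, hnn⟩ := x_NNX K W hW m T S.powers (1 - ε) hρ hρρ (van S.toGenericIntersection)
    n n' D
  have hb2 : b = t := by
    have h1 : (b : K) = (t : K) := by
      rw [← hsd, ← hstr]
      exact heul.symm
    exact Nat.cast_injective h1
  rw [hb2]
  refine ⟨fun n => ?_, ?_, fun N hN => ?_⟩
  · rw [hpow]
    exact x_XPA K W hW m T S.powers (1 - ε) hρ (-1) (Or.inr rfl) n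
  · rw [hpow]
    exact hnt
  · rw [hpow]
    exact hnn N t hsd hN

include hW in
theorem main_of {V : W.Var 0} {L : W.Hom V V} (hL : L ∈ W.Lef V) {r m : ℕ} {T : W.Var m}
    (S : W.Deligne V L r T) {ε : W.Hom T T} {b : ℕ} (R : Weil.Remainder S ε b) :
    (Odd (W.dim T) → Even b) ∧
    (∀ n : ℕ, S.power (1 - ε) n ∈ W.cyc (S.powers.pow n) (S.powers.pow n) 0) ∧
    W.NumTrivial (S.powers.pow (b + 1)) (S.power (1 - ε) (b + 1)) ∧
    (∀ n ≤ b, ¬ W.NumTrivial (S.powers.pow n) (S.power (1 - ε) n)) := by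
  rcases Nat.even_or_odd (W.dim T) with h | h
  · exact ⟨fun h' => absurd h (Nat.not_even_iff_odd.2 h'), main_even W hW hL S h R⟩
  · exact ⟨fun _ => (main_odd W hW hL S h R).1, (main_odd W hW hL S h R).2⟩

include hW in
/-- the Künneth components of the part which comes from `V` are algebraic -/
theorem comp_pj_mem {V : W.Var 0} {L : W.Hom V V} {r m : ℕ} {T : W.Var m}
    (S : W.Deligne V L r T) {ε : W.Hom T T} {b : ℕ} (R : Weil.Remainder S ε b) (i : ℕ) :
    W.comp ε (W.pj T i) ∈ W.cyc T T 0 := by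
  obtain ⟨c, hc, he⟩ := R.factor
  have h1 : S.down * W.pj T i = W.pj V (i + 2 * r) * S.down := by
    ext a b
    unfold Weil.pj
    rw [Matrix.mul_diagonal, Matrix.diagonal_mul]
    by_cases h0 : S.down a b = 0
    · rw [h0, zero_mul, mul_zero]
    · have h1 := S.down_deg a b h0
      by_cases h2 : W.deg T b = i
      · have h3 : W.deg V a = i + 2 * r := by omega
        rw [if_pos h2, if_pos h3, mul_one, one_mul]
      · have h3 : ¬ W.deg V a = i + 2 * r := by omega
        rw [if_neg h2, if_neg h3, mul_zero, zero_mul]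
  have h2 : W.comp ε (W.pj T i) =
      W.comp (W.comp S.up (W.comp c (W.pj V (i + 2 * r)))) S.down := by
    rw [he]
    change S.up * c * S.down * W.pj T i = S.up * (c * W.pj V (i + 2 * r)) * S.down
    rw [Matrix.mul_assoc (S.up * c), h1]
    simp only [Matrix.mul_assoc]
  rw [h2]
  refine S.restrict _ ?_
  have h3 := hW.calculus.comp_mem V V V 0 (-(r : ℤ)) (W.pj V (i + 2 * r))
    (hW.katzMessing V _) c hc
  rwa [zero_add] at h3

include hW in
/-- the rest exists, even dimension -/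
theorem remainder_even {V : W.Var 0} {L : W.Hom V V} (hL : L ∈ W.Lef V) {r m : ℕ} {T : W.Var m}
    (S : W.Deligne V L r T) (hev : Even (W.dim T)) :
    ∃ (ε : W.Hom T T) (b : ℕ), Weil.Remainder S ε b := by
  obtain ⟨ε, hε, hεε, hεadj, hεV, hεmax⟩ := e_EPO K W hW V L hL r m T (toOrt S hev)
  have hkill : ∀ c : W.Hom V V, ∀ u, W.Vanishing S.toGenericIntersection u →
      W.ap (W.comp (W.comp S.up c) S.down) u = 0 := by
    intro c u hu
    have h1 : S.down *ᵥ u = 0 := hu.2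
    show (S.up * c * S.down) *ᵥ u = 0
    rw [← Matrix.mulVec_mulVec, h1, Matrix.mulVec_zero]
  have hεc : ∃ c ∈ W.cyc V V (-(r : ℤ)), ε = W.comp (W.comp S.up c) S.down := by
    obtain ⟨q, c, hc, hq⟩ := e_SCO K W hW V L hL r m T (toOrt S hev) ε hε
    obtain ⟨v, hv0, hv1, hv2⟩ := S.vanishing
    have h1 : W.ap ε v = 0 := hεV v ⟨hv1, hv2⟩
    have h2 := hkill c v ⟨hv1, hv2⟩
    have h4 : (q : K) • v = 0 := by
      have h5 : W.ap ε v = (q : K) • v + W.ap (W.comp (W.comp S.up c) S.down) v := by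
        rw [hq]
        show ((q : K) • (1 : W.Hom T T) + W.comp (W.comp S.up c) S.down) *ᵥ v = _
        rw [Matrix.add_mulVec, Matrix.smul_mulVec, Matrix.one_mulVec]
        rfl
      rw [h1, h2, add_zero] at h5
      exact h5.symm
    have h6 : (q : K) = 0 := (smul_eq_zero.1 h4).resolve_right hv0
    refine ⟨c, hc, ?_⟩
    rw [hq]
    show (q : K) • (1 : W.Hom T T) + _ = _
    rw [h6, zero_smul, zero_add]
    rfl
  replace hεadj : εᵀ * S.powers.form = S.powers.form * ε := hεadj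
  have hρ : (1 : W.Hom T T) - ε ∈ W.cyc T T 0 :=
    (W.cyc T T 0).sub_mem (hW.calculus.one_mem T) hε
  have hρρ : ((1 : W.Hom T T) - ε) * (1 - ε) = 1 - ε := by
    rw [mul_sub, mul_one, sub_mul, one_mul, hεε, sub_self, sub_zero]
  have hρadj : ((1 : W.Hom T T) - ε)ᵀ * S.powers.form = S.powers.form * (1 - ε) := by
    rw [Matrix.transpose_sub, Matrix.transpose_one, sub_mul, one_mul, hεadj, mul_sub, mul_one]
  have hρdeg : ∀ a b, ((1 : W.Hom T T) - ε) a b ≠ 0 → W.deg T a = W.deg T b := by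
    intro a b hab
    have h := hW.calculus.cyc_deg T T 0 _ hρ a b hab
    omega
  have hρU : ∀ u ∈ van S.toGenericIntersection, ((1 : W.Hom T T) - ε) *ᵥ u = u := by
    intro u hu
    have h' : ε *ᵥ u = 0 := hεV u hu
    rw [Matrix.sub_mulVec, Matrix.one_mulVec, h', sub_zero]
  obtain ⟨-, -, hv3, -⟩ := e_VAO K W hW V L hL r m T (toOrt S hev)
  obtain ⟨n, n', ⟨D⟩⟩ := e_ADO K (W.rk T) (W.deg T) (W.dim T) S.powers.form (1 - ε) hev
    S.powers.form_deg S.powers.form_symm S.powers.form_unit hρρ hρadj hρdeg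
    (van S.toGenericIntersection) (fun u hu => hu.1) hρU (fun u hu hv => hv3 u hu hv)
  have hsys := e_SYO K W hW V L hL r m T (toOrt S hev) ε hε hεε hεadj hεV hεmax
    (van S.toGenericIntersection) (fun u => Iff.rfl) n n' D
  obtain ⟨-, t, ht, -, hsd⟩ := e_OSD K (Fin n) (Fin n') D.F _ hsys
  obtain ⟨hstr, -⟩ := x_NNX K W hW m T S.powers (1 - ε) hρ hρρ (van S.toGenericIntersection)
    n n' D
  refine ⟨ε, t, hε, hεε, hεadj, hεc, hεmax, ?_⟩
  rw [hev.neg_one_pow, one_mul]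
  exact hstr.trans hsd

include hW in
/-- the rest exists -/
theorem remainder_exists {V : W.Var 0} {L : W.Hom V V} (hL : L ∈ W.Lef V) {r m : ℕ} {T : W.Var m}
    (S : W.Deligne V L r T) : ∃ (ε : W.Hom T T) (b : ℕ), Weil.Remainder S ε b := by
  rcases Nat.even_or_odd (W.dim T) with h | h
  · exact remainder_even W hW hL S h
  · obtain ⟨ε, h1, h2, h3, h4, -, h6, -, b, -, hb, -⟩ :=
      k_THM K W hW V L hL r m T (toSym S h)
    refine ⟨ε, b, h1, h3, h4, h2, h6, ?_⟩
    rw [h.neg_one_pow, neg_one_mul]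
    exact hb

include hW in
/-- the power vanishes if it has no numerically trivial direct factor -/
theorem zero_of_noPhantom {V : W.Var 0} {L : W.Hom V V} {r m : ℕ}
    {T : W.Var m} (S : W.Deligne V L r T) {ε : W.Hom T T} {b : ℕ} (R : Weil.Remainder S ε b)
    (n : ℕ) (h : W.NumTrivial (S.powers.pow n) (S.power (1 - ε) n))
    (hno : W.NoPhantom (S.powers.pow n)) : S.power (1 - ε) n = 0 := by
  obtain ⟨hρ, hρρ, -, -, -⟩ := rho_facts W hW S R
  obtain ⟨z, hz, hpow⟩ : ∃ z : K, (z = 1 ∨ z = -1) ∧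
      S.power (1 - ε) n = S.powers.permPow z (1 - ε) n := by
    refine ⟨-(-1) ^ W.dim T, ?_, rfl⟩
    rcases Nat.even_or_odd (W.dim T) with h1 | h1
    · right
      rw [h1.neg_one_pow]
    · left
      rw [h1.neg_one_pow, neg_neg]
  rw [hpow] at h ⊢
  have hsq : S.powers.permPow z (1 - ε) n * S.powers.permPow z (1 - ε) n =
      (n.factorial : K) • S.powers.permPow z (1 - ε) n := by
    have h1 := x_IDX K (Fin (W.rk T)) (W.par T) (1 - ε) (par_of_mem W hW hρ) hρρ z hz n
    ext a c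
    obtain ⟨φ, hφ⟩ : ∃ φ : Fin (W.rk (S.powers.pow n)) → List.Vector (Fin (W.rk T)) n,
        ∀ x, (φ x).1 = S.powers.word n x :=
      ⟨fun x => ⟨S.powers.word n x, (S.powers.word_range n _).1 ⟨x, rfl⟩⟩, fun x => rfl⟩
    have hbij : Function.Bijective φ := by
      refine ⟨fun x y hxy => S.powers.word_inj n ?_, fun v => ?_⟩
      · rw [← hφ x, ← hφ y, hxy]
      · obtain ⟨x, hx⟩ := (S.powers.word_range n v.1).2 v.2
        exact ⟨x, Subtype.ext ((hφ x).trans hx)⟩
    have h2 := congrFun (congrFun h1 (φ a)) (φ c)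
    rw [Matrix.mul_apply, Matrix.smul_apply] at h2 ⊢
    have h5 : ∀ x y, S.powers.permPow z (1 - ε) n x y =
        Xp z (W.par T) (1 - ε) n (φ x) (φ y) := by
      intro x y
      show xp z (W.par T) (1 - ε) (S.powers.word n x) (S.powers.word n y) =
        xp z (W.par T) (1 - ε) (φ x).1 (φ y).1
      rw [hφ, hφ]
    have h3 : ∑ x : List.Vector (Fin (W.rk T)) n, Xp z (W.par T) (1 - ε) n (φ a) x *
        Xp z (W.par T) (1 - ε) n x (φ c) =
        ∑ x, S.powers.permPow z (1 - ε) n a x * S.powers.permPow z (1 - ε) n x c := by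
      symm
      refine Fintype.sum_bijective φ hbij _ _ fun x => ?_
      rw [h5, h5]
    rw [← h3, h2, h5]
  have hf : ((n.factorial : ℕ) : K) ≠ 0 := Nat.cast_ne_zero.2 (Nat.factorial_ne_zero n)
  obtain ⟨P, hP⟩ : ∃ P, P = S.powers.permPow z (1 - ε) n := ⟨_, rfl⟩
  have hPc : P ∈ W.cyc (S.powers.pow n) (S.powers.pow n) 0 := by
    rw [hP]
    exact x_XPA K W hW m T S.powers (1 - ε) hρ z hz n
  rw [← hP] at h hsq ⊢
  have h1 : ((n.factorial : ℕ) : K)⁻¹ • P = 0 := by
    refine hno _ ?_ ?_ ?_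
    · have h2 : ((n.factorial : ℕ) : K)⁻¹ • P = ((n.factorial : ℚ)⁻¹) • P := by
        ext a c
        rw [Matrix.smul_apply, Matrix.smul_apply, Rat.smul_def, smul_eq_mul]
        push_cast
        rfl
      rw [h2]
      exact (W.cyc _ _ 0).smul_mem _ hPc
    · change (((n.factorial : ℕ) : K)⁻¹ • P) * (((n.factorial : ℕ) : K)⁻¹ • P) = _
      rw [Matrix.smul_mul, Matrix.mul_smul, hsq, smul_smul, smul_smul, mul_assoc,
        inv_mul_cancel₀ hf, mul_one]
    · intro g hg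
      have h3 : W.str (W.comp g P) = 0 := h g hg
      have h4 : W.comp g (((n.factorial : ℕ) : K)⁻¹ • P) =
          ((n.factorial : ℕ) : K)⁻¹ • W.comp g P := Matrix.mul_smul _ _ _
      rw [h4]
      unfold Weil.str at h3 ⊢
      have h5 : ∑ a, (-1 : K) ^ W.deg (S.powers.pow n) a *
          (((n.factorial : ℕ) : K)⁻¹ • W.comp g P) a a = ((n.factorial : ℕ) : K)⁻¹ *
          ∑ a, (-1 : K) ^ W.deg (S.powers.pow n) a * W.comp g P a a := by
        rw [Finset.mul_sum]
        refine Finset.sum_congr rfl fun a _ => ?_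
        rw [Matrix.smul_apply, smul_eq_mul]
        ring
      rw [h5, h3, mul_zero]
  rcases smul_eq_zero.1 h1 with h2 | h2
  · exact absurd h2 (inv_ne_zero hf)
  · exact h2

theorem numTrivial_zero {n : ℕ} (X : W.Var n) : W.NumTrivial X (0 : W.Hom X X) := by
  intro g _
  have h : W.comp g (0 : W.Hom X X) = 0 := by
    show g * (0 : W.Hom X X) = 0
    exact mul_zero g
  rw [h]
  unfold Weil.str
  exact Finset.sum_eq_zero fun a _ => by rw [Matrix.zero_apply, mul_zero]

include hW in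
/-- the sign conjecture is the vanishing of one numerically trivial class -/
theorem cplus_iff {V : W.Var 0} {L : W.Hom V V} (hL : L ∈ W.Lef V) {r m : ℕ}
    {T : W.Var m} (S : W.Deligne V L r T) {ε : W.Hom T T} {b : ℕ} (R : Weil.Remainder S ε b)
    (n : ℕ) (h1 : W.NumTrivial (S.powers.pow n) (S.power (1 - ε) n)) :
    W.Cplus T ↔ S.power (1 - ε) n = 0 := by
  obtain ⟨hρ, -, -, -, -⟩ := rho_facts W hW S R
  rcases Nat.even_or_odd (W.dim T) with h | h
  · rw [power_even W S h] at h1 ⊢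
    exact x_CSX K W hW V L hL r m T (toOrt S h) ε R.mem R.idem (kills W S R) n h1
  · rw [power_odd W hW S h hρ] at h1 ⊢
    exact k_CPS K W hW V L hL r m T (toSym S h) ε R.mem R.idem (kills W S R) n h1

include hW in
/-- one generic complete intersection -/
theorem core_tfae {V : W.Var 0} {L : W.Hom V V} (hL : L ∈ W.Lef V) {r m : ℕ}
    {T : W.Var m} (S : W.Deligne V L r T) {ε : W.Hom T T} {b : ℕ} (R : Weil.Remainder S ε b) :
    List.TFAE [
      W.Cplus T,
      (1 - ε).rank = b,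
      S.power (1 - ε) (b + 1) = 0,
      ∃ n : ℕ, S.power (1 - ε) n = 0,
      W.NumCplus (S.powers.pow (b + 1)),
      W.Nilpotence (S.powers.pow (b + 1)),
      W.NoPhantom (S.powers.pow (b + 1))] := by
  have hm := main_of W hW hL S R
  have hεmax : ∀ f ∈ W.cyc T T 0, (∀ u, W.Vanishing S.toGenericIntersection u → W.ap f u = 0) →
      W.str (f * (1 - ε)) = 0 := R.max
  have h12 : W.Cplus T ↔ (1 - ε).rank = b := by
    rcases Nat.even_or_odd (W.dim T) with h | h
    · refine x_CPX K W hW V L hL r m T (toOrt S h) ε R.mem R.idem (kills W S R) hεmax b ?_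
      rw [R.euler, h.neg_one_pow, one_mul]
    · refine k_CPR K W hW V L hL r m T (toSym S h) ε R.mem R.idem (kills W S R) hεmax b ?_
      rw [R.euler, h.neg_one_pow, neg_one_mul]
  tfae_have 1 ↔ 2 := h12
  tfae_have 1 ↔ 3 := cplus_iff W hW hL S R (b + 1) hm.2.2.1
  tfae_have 3 → 4 := fun h => ⟨b + 1, h⟩
  tfae_have 4 → 1 := by
    rintro ⟨n, hn⟩
    refine (cplus_iff W hW hL S R n ?_).2 hn
    rw [hn]
    exact numTrivial_zero W _
  tfae_have 1 → 5 := by
    intro h
    have h1 : ∀ n : ℕ, W.NumCplus (S.powers.pow n) := ((local_both W hW hL S).out 0 1).1 h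
    exact h1 (b + 1)
  tfae_have 5 → 6 := fun h => nilpotence_of_numCplus W hW (S.powers.pow (b + 1)) h
  tfae_have 6 → 7 := fun h => (r_NIL K W hW m _).2 h
  tfae_have 7 → 3 := fun h => zero_of_noPhantom W hW S R (b + 1) hm.2.2.1 h
  tfae_finish

include hW in
/-- one degree of one variety over `F 0` -/
theorem bdeg_of_zero (Z : W.Var 0) (i : ℕ) (hi : i < W.dim Z)
    (h : ∃ L ∈ W.Lef Z, ∃ (m : ℕ) (T : W.Var m)
      (S : W.Deligne (W.prod Z Z) (W.box L L) (2 * (W.dim Z - i) - 1) T)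
      (ε : W.Hom T T) (b : ℕ), Weil.Remainder S ε b ∧ S.power (1 - ε) (b + 1) = 0) :
    W.BDeg Z i := by
  obtain ⟨L, hL, m, T, S, ε, b, R, h⟩ := h
  refine (point W hW Z i hi).1 ⟨L, hL, m, T, ⟨S.toGenericIntersection⟩, ?_⟩
  exact ((core_tfae W hW (hW.lefschetz.box_mem Z Z L hL L hL) S R).out 2 0).1 h

include hW in
/-- one variety over `F 0` -/
theorem b_tfae3 (hO : W.DeligneSections Odd) (Z : W.Var 0) :
    List.TFAE [
      W.B Z,
      ∀ L ∈ W.Lef (W.prod Z Z), ∀ (r m : ℕ) (T : W.Var m) (S : W.Deligne (W.prod Z Z) L r T)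
        (ε : W.Hom T T) (b : ℕ), 1 ≤ r → Weil.Remainder S ε b → S.power (1 - ε) (b + 1) = 0,
      ∀ i < W.dim Z, ∃ L ∈ W.Lef Z, ∃ (m : ℕ) (T : W.Var m)
        (S : W.Deligne (W.prod Z Z) (W.box L L) (2 * (W.dim Z - i) - 1) T)
        (ε : W.Hom T T) (b : ℕ), Weil.Remainder S ε b ∧
          S.power (1 - ε) (b + 1) = 0] := by
  tfae_have 1 → 2 := by
    intro hB L hL r m T S ε b hr R
    have h0 : ∀ L ∈ W.Lef (W.prod Z Z), ∀ (r m : ℕ) (T : W.Var m)
        (S : W.Deligne (W.prod Z Z) L r T) (n : ℕ), 1 ≤ r → W.Nilpotence (S.powers.pow n) :=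
      ((b_both W hW hO Z).out 0 3).1 hB
    have h2 : W.Cplus T := ((local_both W hW hL S).out 2 0).1 fun n => h0 L hL r m T S n hr
    exact ((core_tfae W hW hL S R).out 0 2).1 h2
  tfae_have 2 → 3 := by
    intro h i hi
    obtain ⟨L, hL⟩ := hW.lefschetz.nonempty Z
    have hLL := hW.lefschetz.box_mem Z Z L hL L hL
    have hd : W.dim (W.prod Z Z) = W.dim Z + W.dim Z := hW.products.dim_prod Z Z
    obtain ⟨m, T, ⟨S⟩⟩ := hO (W.prod Z Z) (W.box L L) hLL (2 * (W.dim Z - i) - 1) (by omega)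
      (by omega) ⟨i, by omega⟩
    obtain ⟨ε, b, R⟩ := remainder_exists W hW hLL S
    exact ⟨L, hL, m, T, S, ε, b, R, h _ hLL _ m T S ε b (by omega) R⟩
  tfae_have 3 → 1 := by
    intro h
    refine (b_iff W hW Z).1 (b_of_bdeg (toTheory W hW) Z fun i hi => ?_)
    exact (bdeg_iff W hW Z i).2 (bdeg_of_zero W hW Z i hi (h i hi))
  tfae_finish

include hW in
/-- all varieties -/
theorem global_iff (hO : W.DeligneSections Odd) (hM : W.Models) :
    (∀ (n : ℕ) (X : W.Var n), W.C X ∧ W.B X) ↔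
      ∀ (V : W.Var 0) (L : W.Hom V V), L ∈ W.Lef V → ∀ (r m : ℕ) (T : W.Var m)
        (S : W.Deligne V L r T) (ε : W.Hom T T) (b : ℕ), Weil.Remainder S ε b →
        S.power (1 - ε) (b + 1) = 0 := by
  have h0 := global_tfae2 r_CPW r_NIL r_LOC W hW (odd_sections W hO) hM
  constructor
  · intro h V L hL r m T S ε b R
    have h2 : ∀ (n : ℕ) (X : W.Var n), W.Cplus X := (h0.out 6 0).1 h
    have h1 := h2 m T
    exact ((core_tfae W hW hL S R).out 0 2).1 h1
  · intro h
    refine (h0.out 5 6).1 fun Z => ?_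
    exact ((b_tfae3 W hW hO Z).out 1 0).1 fun L hL r m T S ε b _ R =>
      h (W.prod Z Z) L hL r m T S ε b R

include hW in
/-- all generic complete intersections in one variety over `F 0` -/
theorem sections_zero (hO : W.DeligneSections fun _ => True) (V : W.Var 0)
    (t : W.Transposition V) {L : W.Hom V V} (hL : L ∈ W.Lef V) :
    List.TFAE [
      ∀ (r m : ℕ) (T : W.Var m), 1 ≤ r → Nonempty (W.GenericIntersection V L r T) → W.C T,
      ∀ (r m : ℕ) (T : W.Var m) (S : W.Deligne V L r T) (ε : W.Hom T T) (b : ℕ), 1 ≤ r →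
        Weil.Remainder S ε b → S.power (1 - ε) (b + 1) = 0,
      ∀ r, 1 ≤ r → r < W.dim V → ∃ (m : ℕ) (T : W.Var m) (S : W.Deligne V L r T)
        (ε : W.Hom T T) (b : ℕ), Weil.Remainder S ε b ∧ S.power (1 - ε) (b + 1) = 0] := by
  have h0 := sections_both W hW hO V t hL
  tfae_have 1 → 2 := by
    intro h r m T S ε b hr R
    have hC : W.C T := h r m T hr ⟨S.toGenericIntersection⟩
    have hP : W.Cplus T := cplus_of_c (toTheory W hW) T hC
    exact ((core_tfae W hW hL S R).out 0 2).1 hP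
  tfae_have 2 → 3 := by
    intro h r hr hr2
    obtain ⟨m, T, ⟨S⟩⟩ := hO V L hL r hr hr2 trivial
    obtain ⟨ε, b, R⟩ := remainder_exists W hW hL S
    exact ⟨m, T, S, ε, b, R, h r m T S ε b hr R⟩
  tfae_have 3 → 1 := by
    intro h
    refine (h0.out 2 0).1 fun r hr hr2 => ?_
    obtain ⟨m, T, S, ε, b, R, h1⟩ := h r hr hr2
    have h2 : W.Cplus T := ((core_tfae W hW hL S R).out 2 0).1 h1
    exact ⟨m, T, S, ((local_both W hW hL S).out 0 3).1 h2⟩
  tfae_finish

end

end Pool.Agent.H64.EK
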