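import Pool.Agent.H64.EK.Targets
import Pool.Agent.H60.KM.SPJ

/-!
# Board ekm_modules, row XPJ
-/

set_option autoImplicit false

open Pool.Agent.H60.KM Matrix Pool.Agent.H2.NL Pool.Agent.H2.KM Pool.Agent.H64.CC Pool.Agent.H64.EK

namespace Pool.Agent.H64.EKX

section

variable {K : Type} [Field K] {I J M : Type} [Fintype J]

/-- part one -/
lemma xpj_one (z : K) (o : M → Bool) (j : Matrix I J K) (g : Matrix J M K) (u : List I) :
    ∀ w : List M, pf j (fun v => xp z o g v w) u = xp z o (j * g) u w := by
  induction u with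
  | nil =>
    intro w
    cases w with
    | nil => simp [pf, xp]
    | cons c w => simp [pf, xp]
  | cons a u ih =>
    intro w
    change ∑ b, j a b * pf j (fun l => xp z o g (b :: l) w) u =
      ((selz z o w).map fun x => x.1 * (j * g) a x.2.1 * xp z o (j * g) u x.2.2).sum
    have h1 : ∀ b, pf j (fun l => xp z o g (b :: l) w) u =
        ((selz z o w).map fun x => x.1 * g b x.2.1 * xp z o (j * g) u x.2.2).sum := by
      intro b
      have h2 := pf_list j u (selz z o w) (fun x => x.1 * g b x.2.1) (fun x l => xp z o g l x.2.2)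
      simp only [ih] at h2
      exact h2
    simp only [h1, ← List.sum_map_mul_left]
    rw [sum_exch]
    congr 1
    refine List.map_congr_left fun x _ => ?_
    rw [Matrix.mul_apply, Finset.mul_sum, Finset.sum_mul]
    refine Finset.sum_congr rfl fun b _ => ?_
    ring

/-- selections -/
lemma xpj_sel (z : K) (o' : J → Bool) (o : M → Bool) (i : Matrix J M K)
    (hi : ∀ b a, i b a ≠ 0 → o' b = o a) (w : List M) : ∀ ψ : J → List J → K,
    pf iᵀ (fun v => ((selz z o' v).map fun x => x.1 * ψ x.2.1 x.2.2).sum) w =
      ((selz z o w).map fun x => x.1 * ∑ b, i b x.2.1 * pf iᵀ (ψ b) x.2.2).sum := by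
  induction w with
  | nil => intro ψ; simp [pf, selz]
  | cons c w ih =>
    intro ψ
    change ∑ d, i d c * pf iᵀ (fun l =>
      ((selz z o' (d :: l)).map fun x => x.1 * ψ x.2.1 x.2.2).sum) w = _
    have h1 : ∀ d, pf iᵀ (fun l =>
        ((selz z o' (d :: l)).map fun x => x.1 * ψ x.2.1 x.2.2).sum) w = pf iᵀ (ψ d) w +
        ((selz z o w).map fun x => x.1 * ∑ b, i b x.2.1 *
          (z * ks K (o' d) (o' b) * pf iᵀ (fun l => ψ b (d :: l)) x.2.2)).sum := by
      intro d
      have h2 : (fun l => ((selz z o' (d :: l)).map fun x => x.1 * ψ x.2.1 x.2.2).sum) =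
          ψ d + fun l => ((selz z o' l).map fun x => x.1 *
            (fun a r => z * ks K (o' d) (o' a) * ψ a (d :: r)) x.2.1 x.2.2).sum := by
        funext l
        simp only [selz, List.map_cons, List.sum_cons, List.map_map, one_mul, Pi.add_apply]
        congr 1
        congr 1
        refine List.map_congr_left fun x _ => ?_
        simp only [Function.comp_apply]
        ring
      rw [h2, pf_add]
      refine congrArg₂ (· + ·) rfl
        ((ih (fun a r => z * ks K (o' d) (o' a) * ψ a (d :: r))).trans ?_)
      congr 1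
      refine List.map_congr_left fun x _ => ?_
      congr 1
      refine Finset.sum_congr rfl fun b _ => ?_
      congr 1
      exact pf_smul iᵀ (z * ks K (o' d) (o' b)) x.2.2 (fun l => ψ b (d :: l))
    simp only [h1, mul_add, Finset.sum_add_distrib]
    rw [show selz z o (c :: w) = (1, c, w) :: (selz z o w).map fun x =>
      (z * ks K (o c) (o x.2.1) * x.1, x.2.1, c :: x.2.2) from rfl]
    simp only [List.map_cons, List.sum_cons, List.map_map, one_mul]
    congr 1
    simp only [← List.sum_map_mul_left]
    rw [sum_exch]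
    congr 1
    refine List.map_congr_left fun x _ => ?_
    simp only [Function.comp_apply]
    have h3 : ∀ b, pf iᵀ (ψ b) (c :: x.2.2) =
        ∑ d, i d c * pf iᵀ (fun l => ψ b (d :: l)) x.2.2 := fun b => rfl
    simp only [h3, Finset.mul_sum]
    rw [Finset.sum_comm]
    refine Finset.sum_congr rfl fun b _ => Finset.sum_congr rfl fun d _ => ?_
    by_cases e1 : i d c = 0
    · rw [e1]
      ring
    by_cases e2 : i b x.2.1 = 0
    · rw [e2]
      ring
    rw [hi d c e1, hi b x.2.1 e2]
    ring

/-- part two -/
lemma xpj_two (z : K) (o' : J → Bool) (o : M → Bool) (g : Matrix I J K) (i : Matrix J M K)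
    (hi : ∀ b a, i b a ≠ 0 → o' b = o a) (u : List I) :
    ∀ w : List M, pf iᵀ (fun v => xp z o' g u v) w = xp z o (g * i) u w := by
  induction u with
  | nil =>
    intro w
    cases w with
    | nil => simp [pf, xp]
    | cons c w =>
      change ∑ b, i b c * pf iᵀ (fun l => xp z o' g [] (b :: l)) w = 0
      refine Finset.sum_eq_zero fun b _ => ?_
      have h : (fun l => xp z o' g [] (b :: l)) = fun _ => (0 : K) := by
        funext l
        simp [xp]
      rw [h, pf_zero, mul_zero]
  | cons a u ih =>
    intro w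
    have h1 : (fun v => xp z o' g (a :: u) v) = fun v => ((selz z o' v).map fun x => x.1 *
        (fun b l => g a b * xp z o' g u l) x.2.1 x.2.2).sum := by
      funext v
      simp only [xp]
      congr 1
      refine List.map_congr_left fun x _ => ?_
      ring
    rw [h1]
    refine (xpj_sel z o' o i hi w (fun b l => g a b * xp z o' g u l)).trans ?_
    simp only [xp]
    congr 1
    refine List.map_congr_left fun x _ => ?_
    rw [Matrix.mul_apply, Finset.mul_sum, mul_assoc, Finset.sum_mul, Finset.mul_sum]
    refine Finset.sum_congr rfl fun b _ => ?_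
    have h2 : pf iᵀ (fun l => g a b * xp z o' g u l) x.2.2 = g a b * xp z o (g * i) u x.2.2 := by
      rw [← ih]
      exact pf_smul iᵀ (g a b) x.2.2 (fun l => xp z o' g u l)
    rw [h2]
    ring

end

/-- XPJ: the symmetrizer and base change. -/
theorem pf_XPJ : T_XPJ := by
  intro K _ I J M _ _ _ _ _ _ z n
  refine ⟨fun o j g => ?_, fun o' o g i hi => ?_⟩
  · ext u w
    rw [Matrix.mul_apply]
    change ∑ v : List.Vector J n, (List.zipWith (fun a b => j a b) u.1 v.1).prod * xp z o g v.1 w.1 =
      xp z o (j * g) u.1 w.1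
    rw [← xpj_one z o j g u.1 w.1]
    exact pf_vsum j n u.1 (fun v => xp z o g v w.1) u.2
  · ext u w
    rw [Matrix.mul_apply]
    change ∑ v : List.Vector J n, xp z o' g u.1 v.1 * (List.zipWith (fun a b => i a b) v.1 w.1).prod =
      xp z o (g * i) u.1 w.1
    rw [← xpj_two z o' o g i hi u.1 w.1, ← pf_vsum iᵀ n w.1 (fun v => xp z o' g u.1 v) w.2]
    refine Finset.sum_congr rfl fun v _ => ?_
    rw [mul_comm]
    congr 2
    rw [List.zipWith_comm]
    rfl

end Pool.Agent.H64.EKX
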