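import Pool.Agent.H64.NLW.Rows
import Pool.Agent.H64.NMW.Rows
import Pool.Agent.H64.EV.Rows
import Pool.Agent.H1.EK.IDX
import Pool.Agent.H10.EK.FLP
import Pool.Agent.H10.EK.XPS
import Pool.Agent.H12.EK.EKM
import Pool.Agent.H13.EK.NTX
import Pool.Agent.H24.EK.NNX
import Pool.Agent.H33.EK.XPZ
import Pool.Agent.H34.EK.CPX
import Pool.Agent.H34.EK.XPA
import Pool.Agent.H4.EK.ETR
import Pool.Agent.H42.EK.EX1
import Pool.Agent.H42.EK.EX2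
import Pool.Agent.H44.EK.CSX
import Pool.Agent.H64.EK.XPJ
import Pool.Agent.H95.EK.BSX

/-!
# The rows, composed
-/

set_option autoImplicit false

open Pool.Agent.H64.CC Pool.Agent.H2.NL Pool.Agent.H64.EV Pool.Agent.H64.EK

namespace Pool.Agent.H64.EK

theorem x_BSX : T_BSX :=
  Pool.Agent.H95.EK.pf_BSX Pool.Agent.H64.NMW.k_OPS Pool.Agent.H64.NLW.r_OPG Pool.Agent.H64.NMW.k_GSW Pool.Agent.H64.NMW.k_RCH

theorem x_CPX : T_CPX :=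
  Pool.Agent.H34.EK.pf_CPX Pool.Agent.H64.EV.e_CPO

theorem x_XPS : T_XPS :=
  Pool.Agent.H10.EK.pf_XPS

theorem x_FLP : T_FLP :=
  Pool.Agent.H10.EK.pf_FLP

theorem x_XPZ : T_XPZ :=
  Pool.Agent.H33.EK.pf_XPZ x_XPS Pool.Agent.H64.NMW.k_SPZ Pool.Agent.H64.NMW.k_SPT x_FLP

theorem x_XPJ : T_XPJ :=
  Pool.Agent.H64.EKX.pf_XPJ

theorem x_XPA : T_XPA :=
  Pool.Agent.H34.EK.pf_XPA x_XPZ x_XPJ Pool.Agent.H64.NLW.r_IDS Pool.Agent.H64.NLW.r_OPG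

theorem x_IDX : T_IDX :=
  Pool.Agent.H1.EK.pf_IDX x_XPS Pool.Agent.H64.NMW.k_IDP

theorem x_CSX : T_CSX :=
  Pool.Agent.H44.EK.pf_CSX Pool.Agent.H64.EV.e_CPO Pool.Agent.H64.NLW.r_CPW Pool.Agent.H64.NLW.r_NIL x_XPA x_IDX

theorem x_EX1 : T_EX1 :=
  Pool.Agent.H42.EK.pf_EX1 Pool.Agent.H64.NMW.k_GSW

theorem x_EX2 : T_EX2 :=
  Pool.Agent.H42.EK.EX2.pf_EX2

theorem x_ETR : T_ETR :=
  Pool.Agent.H4.EK.pf_ETR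

theorem x_EKM : T_EKM :=
  Pool.Agent.H12.EK.pf_EKM Pool.Agent.H64.EV.e_TPR x_FLP x_BSX x_EX1 x_EX2 x_ETR x_XPZ Pool.Agent.H64.EV.e_OML

theorem x_NNX : T_NNX :=
  Pool.Agent.H24.EK.pf_NNX x_XPJ x_XPS Pool.Agent.H64.NMW.k_SPT

theorem x_NTX : T_NTX :=
  Pool.Agent.H13.EK.pf_NTX x_XPJ Pool.Agent.H64.NLW.r_OPJ Pool.Agent.H64.NLW.r_OPG Pool.Agent.H64.NLW.r_IDS Pool.Agent.H64.NLW.r_PFB

end Pool.Agent.H64.EK
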