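import Pool.Agent.H2.KM.Targets2
import Pool.Agent.H64.EV.Targets
import Pool.Agent.H64.EK.Defs

/-!
# Targets: exterior powers modulo numerical equivalence
-/

set_option autoImplicit false

open Matrix Pool.Agent.H64.CC Pool.Agent.H2.NL Pool.Agent.H2.KM Pool.Agent.H64.EV

namespace Pool.Agent.H64.EK

section words

variable {K : Type} [Field K] {I J : Type}

/-- the same as a matrix -/
def Xp (z : K) (o : J → Bool) (f : Matrix I J K) (n : ℕ) :
    Matrix (List.Vector I n) (List.Vector J n) K := Matrix.of fun u v => xp z o f u.1 v.1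

/-- the opposite parity -/
def fo (o : I → Bool) (a : I) : Bool := !o a

/-- the product of the signs of the letters at the odd places, for a word which starts at the
place `i` -/
def twl (K : Type) [Field K] {I : Type} (o : I → Bool) : ℕ → List I → K
  | _, [] => 1
  | i, a :: w => sg K (o a) ^ i * twl K o (i + 1) w

/-- the form for the opposite parity -/
def feta (o : I → Bool) (η : Matrix I I K) : Matrix I I K := Matrix.of fun a b => sg K (o a) * η a b

/-- the class of the diagonal for the opposite parity -/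
def fom (o : I → Bool) (ω : Matrix I I K) : Matrix I I K := Matrix.of fun a b => ω a b * sg K (o b)

/-- the twisted classes -/
def fA [CharZero K] (o : I → Bool) (A : ℕ → Submodule ℚ (List I → K)) (k : ℕ) :
    Submodule ℚ (List I → K) where
  carrier := {t | (fun w => twl K o 0 w * t w) ∈ A k}
  add_mem' := by
    intro t t' h h'
    have e : (fun w => twl K o 0 w * (t + t') w) =
        (fun w => twl K o 0 w * t w) + fun w => twl K o 0 w * t' w := by
      funext w
      exact mul_add _ _ _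
    show (fun w => twl K o 0 w * (t + t') w) ∈ A k
    rw [e]
    exact (A k).add_mem h h'
  zero_mem' := by
    have e : (fun w => twl K o 0 w * (0 : List I → K) w) = 0 := by
      funext w
      exact mul_zero _
    show (fun w => twl K o 0 w * (0 : List I → K) w) ∈ A k
    rw [e]
    exact (A k).zero_mem
  smul_mem' := by
    intro q t h
    have e : (fun w => twl K o 0 w * (q • t) w) = q • fun w => twl K o 0 w * t w := by
      funext w
      show twl K o 0 w * (q • t w) = q • (twl K o 0 w * t w)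
      rw [Rat.smul_def, Rat.smul_def]
      ring
    show (fun w => twl K o 0 w * (q • t) w) ∈ A k
    rw [e]
    exact (A k).smul_mem q h

end words

section form

variable {K : Type} [Field K] {I : Type} [Fintype I] [DecidableEq I] (F : OForm K I)

/-- the factor of a word over `I × Bool`, without the parity signs -/
def kap : List (I × Bool) → K
  | [] => 1
  | a :: w => (if a.2 = true then 1 else F.c (F.st a.1)) * kap w

/-- the tensor on `R ⊗ K²` which is given by a tensor with upper and lower places: the letters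
`(a, false)` are upper, the letters `(a, true)` are lower -/
def Xt (x : List I → List I → K) (W : List (I × Bool)) : K :=
  if (W.map Prod.snd).count true = (W.map Prod.snd).count false then
    kap F W * Gp (fo F.o) (W.map fun a => !a.2) x (W.map Prod.fst) else 0

/-- the contraction of an upper and a lower place -/
def oC (x : List I → List I → K) (u v : List I) : K :=
  ∑ a, F.c (F.st a) * sgp K (fo F.o) (F.st a) u * x (a :: u) (F.st a :: v)

end form

/-! ### The opposite parity -/

/-- FLP: the calculus for the opposite parity, and the operators. -/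
def T_FLP : Prop := ∀ (K : Type) [Field K] [CharZero K] (I : Type) [Fintype I] [DecidableEq I]
  (o : I → Bool) (η ω : Matrix I I K) (A : ℕ → Submodule ℚ (List I → K)),
  (∀ a b, η a b ≠ 0 → o a = o b) → Calc o η ω A →
  Calc (fo o) (feta o η) (fom o ω) (fA o A) ∧
  ∀ (n : ℕ) (t : List I → K), op (feta o η) n t =
    Matrix.diagonal (fun u : List.Vector I n => twl K o 0 u.1) *
      op η n (fun w => twl K o 0 w * t w) *
    Matrix.diagonal (fun u : List.Vector I n => twl K o 0 u.1)

/-- XPS: the sums over permutations and the opposite parity. -/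
def T_XPS : Prop := ∀ (K : Type) [Field K] (I J : Type) (o' : I → Bool) (o : J → Bool)
  (f : Matrix I J K), (∀ a b, f a b ≠ 0 → o' a = o b) → ∀ (u : List I) (v : List J),
  xp 1 o f u v = sp o f u v ∧
  xp (-1) o f u v = twl K o' 0 u * sp (fo o) f u v * twl K o 0 v

/-- BSX: an operator which is invariant under exchanges on both sides. -/
def T_BSX : Prop := ∀ (K : Type) [Field K] [CharZero K] (I : Type) [Fintype I] [DecidableEq I]
  (o : I → Bool) (η ω : Matrix I I K) (A : ℕ → Submodule ℚ (List I → K)), Calc o η ω A →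
  η * ω = 1 → ω * η = 1 → (∀ a b, η a b ≠ 0 → o a = o b) → ∀ n : ℕ, ∀ t ∈ A n,
  (∀ j, j + 2 ≤ n → Px K o n j * op η n t = op η n t ∧ op η n t * Px K o n j = op η n t) →
  ∃ x : List I → List I → K, GS o x ∧
    (∀ u v : List I, u.length = n → v.length = n → t (u ++ v) = x u v) ∧ MA o (A n) n n x

/-- EX1: the tensor on `R ⊗ K²`. -/
def T_EX1 : Prop := ∀ (K : Type) [Field K] [CharZero K] (I : Type) [Fintype I] [DecidableEq I]
  (F : OForm K I) (A : ℕ → Submodule ℚ (List I → K)), Calc F.o F.η F.ω A →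
  ∀ (l : ℕ) (x : List I → List I → K), GS (fo F.o) x → MA (fo F.o) (fA F.o A l) l l x →
  Xt F x ∈ F.TA A l ∧ Symm F.tl.o (2 * l) (Xt F x)

/-- EX2: its contraction. -/
def T_EX2 : Prop := ∀ (K : Type) [Field K] (I : Type) [Fintype I] [DecidableEq I] (F : OForm K I)
  (x : List I → List I → K), GS (fo F.o) x →
  GS (fo F.o) (oC F x) ∧ con F.tl.η 0 (Xt F x) = (2 : K) • Xt F (oC F x)

/-- ETR: the supertrace is the iterated mixed contraction. -/
def T_ETR : Prop := ∀ (K : Type) [Field K] (I : Type) [Fintype I] [DecidableEq I] (F : OForm K I)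
  (n : ℕ) (t : List I → K) (x : List I → List I → K), GS (fo F.o) x →
  (∀ u v : List I, u.length = n → v.length = n → twl K F.o 0 (u ++ v) * t (u ++ v) = x u v) →
  ∑ u : List.Vector I n, sgw K F.o u.1 * op F.η n t u u = (oC F)^[n] x [] []

/-- XPZ: the symmetrizer and the antisymmetrizer. -/
def T_XPZ : Prop := ∀ (K : Type) [Field K] [CharZero K] (I : Type) [Fintype I] [DecidableEq I]
  (o : I → Bool) (η ω : Matrix I I K) (A : ℕ → Submodule ℚ (List I → K)), Calc o η ω A →
  η * ω = 1 → ω * η = 1 → (∀ a b, η a b ≠ 0 → o a = o b) → ∀ z : K, z = 1 ∨ z = -1 → ∀ n : ℕ,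
  Xp z o (1 : Matrix I I K) n * Xp z o (1 : Matrix I I K) n =
    (n.factorial : K) • Xp z o (1 : Matrix I I K) n ∧
  (∀ j, j + 2 ≤ n → Px K o n j * Xp z o (1 : Matrix I I K) n = z • Xp z o (1 : Matrix I I K) n ∧
    Xp z o (1 : Matrix I I K) n * Px K o n j = z • Xp z o (1 : Matrix I I K) n) ∧
  (∃ t ∈ A n, op η n t = Xp z o 1 n) ∧
  ∑ u : List.Vector I n, sgw K o u.1 * xp z o (1 : Matrix I I K) u.1 u.1 =
    ∏ k ∈ Finset.range n, ((∑ a, sg K (o a)) + z * (k : K))

/-- XPJ: functoriality. -/
def T_XPJ : Prop := ∀ (K : Type) [Field K] (I J M : Type) [Fintype I] [DecidableEq I] [Fintype J]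
  [DecidableEq J] [Fintype M] [DecidableEq M] (z : K) (n : ℕ),
  (∀ (o : M → Bool) (j : Matrix I J K) (g : Matrix J M K),
    Jm j n * Xp z o g n = Xp z o (j * g) n) ∧
  (∀ (o' : J → Bool) (o : M → Bool) (g : Matrix I J K) (i : Matrix J M K),
    (∀ b a, i b a ≠ 0 → o' b = o a) → Xp z o' g n * Jm i n = Xp z o (g * i) n)

/-- IDX: the sum over permutations for a projector is a projector, up to the factor `n!`. -/
def T_IDX : Prop := ∀ (K : Type) [Field K] [CharZero K] (I : Type) [Fintype I] [DecidableEq I]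
  (o : I → Bool) (f : Matrix I I K), (∀ a b, f a b ≠ 0 → o a = o b) → f * f = f →
  ∀ z : K, z = 1 ∨ z = -1 → ∀ n : ℕ,
  Xp z o f n * Xp z o f n = (n.factorial : K) • Xp z o f n

/-- EKM: the antisymmetrizer is numerically trivial. -/
def T_EKM : Prop := ∀ (K : Type) [Field K] [CharZero K] (I : Type) [Fintype I] [DecidableEq I]
  (F : OForm K I) (A : ℕ → Submodule ℚ (List I → K)), Calc F.o F.η F.ω A → ERel F A →
  ∀ l : ℕ, 1 ≤ l → F.sd = (l : K) - 1 → ∀ y ∈ A l,
  ∑ u : List.Vector I l, sgw K F.o u.1 *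
    (op F.η l y * Xp (-1) F.o (1 : Matrix I I K) l) u u = 0

/-! ### The Weil cohomology -/

/-- XPA: the powers of a correspondence, symmetrized or antisymmetrized, are algebraic. -/
def T_XPA : Prop := ∀ (K : Type) [Field K] [CharZero K] (W : Weil K), W.Theory →
  ∀ (m : ℕ) (T : W.Var m) (P : W.Powers T), ∀ f ∈ W.cyc T T 0, ∀ z : K, z = 1 ∨ z = -1 →
  ∀ n : ℕ, P.permPow z f n ∈ W.cyc (P.pow n) (P.pow n) 0

/-- NTX: from the system to the powers of `T`. -/
def T_NTX : Prop := ∀ (K : Type) [Field K] [CharZero K] (W : Weil K), W.Theory →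
  ∀ (m : ℕ) (T : W.Var m) (P : W.Powers T) (ρ : W.Hom T T), ρ ∈ W.cyc T T 0 → ρ * ρ = ρ →
  ∀ (U : Submodule K (W.H T)) (n n' : ℕ) (D : OAdapt (W.deg T) P.form ρ U n n') (z : K) (N : ℕ),
  (∀ y ∈ pull D.j P.toPowerData.classes N, ∑ u : List.Vector (Fin n ⊕ Fin n') N,
    sgw K D.F.o u.1 * (op D.F.η N y *
      Xp z D.F.o (1 : Matrix (Fin n ⊕ Fin n') (Fin n ⊕ Fin n') K) N) u u = 0) →
  W.NumTrivial (P.pow N) (P.permPow z ρ N)

/-- NNX: the lower powers are not numerically trivial. -/
def T_NNX : Prop := ∀ (K : Type) [Field K] [CharZero K] (W : Weil K), W.Theory →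
  ∀ (m : ℕ) (T : W.Var m) (P : W.Powers T) (ρ : W.Hom T T), ρ ∈ W.cyc T T 0 → ρ * ρ = ρ →
  ∀ (U : Submodule K (W.H T)) (n n' : ℕ) (D : OAdapt (W.deg T) P.form ρ U n n'),
  W.str ρ = D.F.sd ∧ ∀ N b : ℕ, D.F.sd = (b : K) → N ≤ b →
    ¬ W.NumTrivial (P.pow N) (P.permPow (-1) ρ N)

/-- CPX: the sign conjecture in terms of the ranks. -/
def T_CPX : Prop := ∀ (K : Type) [Field K] [CharZero K] (W : Weil K), W.Theory →
  ∀ (V : W.Var 0) (L : W.Hom V V), L ∈ W.Lef V → ∀ (r m : ℕ) (T : W.Var m)
  (S : W.Orthogonal V L r T), ∀ ε ∈ W.cyc T T 0, ε * ε = ε →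
  (∀ u, W.Vanishing S.toGenericIntersection u → W.ap ε u = 0) →
  (∀ f ∈ W.cyc T T 0, (∀ u, W.Vanishing S.toGenericIntersection u → W.ap f u = 0) →
    W.str (f * (1 - ε)) = 0) →
  ∀ b : ℕ, W.str (1 - ε) = (b : K) → (W.Cplus T ↔ (1 - ε).rank = b)

/-- CSX: the sign conjecture is the vanishing of one class. -/
def T_CSX : Prop := ∀ (K : Type) [Field K] [CharZero K] (W : Weil K), W.Theory →
  ∀ (V : W.Var 0) (L : W.Hom V V), L ∈ W.Lef V → ∀ (r m : ℕ) (T : W.Var m)
  (S : W.Orthogonal V L r T), ∀ ε ∈ W.cyc T T 0, ε * ε = ε →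
  (∀ u, W.Vanishing S.toGenericIntersection u → W.ap ε u = 0) →
  ∀ n : ℕ, W.NumTrivial (S.powers.pow n) (S.powers.permPow (-1) (1 - ε) n) →
  (W.Cplus T ↔ S.powers.permPow (-1) (1 - ε) n = 0)

end Pool.Agent.H64.EK
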